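import Pool.Agent.Helper88.MP.LowA

/-!
# Block LOWK of project MP, part 2
-/

set_option autoImplicit false

namespace Pool.Agent.Helper88.MP

open NumberField IsDedekindDomain Filter Topology
open Pool.Agent.HG (Pr nm)
open Pool.Agent.Helper21.HG Pool.Agent.Helper70.Art Pool.Agent.H53SCD

noncomputable section

section nf

variable (k : Type) [Field k] [NumberField k]

theorem two_nm (v : Pr k) : 2 ≤ nm v := two_le_norm k v

theorem log_div : ∃ (C : ℝ) (D : ℕ), 0 ≤ C ∧ 1 ≤ D ∧ ∀ x : ℕ, 2 ≤ x → ∀ U : Finset (Pr k), (∀ v ∈ U, nm v ≤ x) →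
    ∑ v ∈ U, Real.log (nm v) / nm v ≤ D * (Real.log x + C) := by
  obtain ⟨C, hC, h⟩ := mertens
  have hd : 1 ≤ Module.finrank ℚ k := Module.finrank_pos
  refine ⟨C, Module.finrank ℚ k * Module.finrank ℚ k, hC, Nat.one_le_iff_ne_zero.2 (by positivity), fun x hx U hU => ?_⟩
  have h1 := sum_le U x hU (fun v => Real.log (nm v) / nm v)
    (fun p => Module.finrank ℚ k * (Real.log (p : ℕ) / (p : ℕ))) (fun p => by
      have := Real.log_natCast_nonneg (p : ℕ)
      positivity) (fun v _ => by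
      have h2 := two_nm k v
      have hp : (0 : ℝ) < (pb v : ℕ) := by exact_mod_cast (pb v).2.pos
      have h3 : Real.log (nm v) ≤ Module.finrank ℚ k * Real.log (pb v : ℕ) := by
        rw [← Real.log_pow]
        apply Real.log_le_log
        · exact_mod_cast (by omega : 0 < nm v)
        · exact_mod_cast nm_le_pow v
      have h4 : ((pb v : ℕ) : ℝ) ≤ nm v := by exact_mod_cast pb_le v
      have h5 := Real.log_natCast_nonneg (pb v : ℕ)
      calc Real.log (nm v) / nm v ≤ Module.finrank ℚ k * Real.log (pb v : ℕ) / nm v :=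
            div_le_div_of_nonneg_right h3 (Nat.cast_nonneg _)
        _ ≤ Module.finrank ℚ k * Real.log (pb v : ℕ) / (pb v : ℕ) :=
            div_le_div_of_nonneg_left (by positivity) hp h4
        _ = _ := by ring)
  rw [← Finset.mul_sum] at h1
  have h2 := (h x hx).2
  push_cast
  calc _ ≤ _ := h1
    _ ≤ (Module.finrank ℚ k : ℝ) * (Module.finrank ℚ k * (Real.log x + C)) := by gcongr
    _ = _ := by ring

theorem sum_sq : ∃ C : ℝ, ∀ U : Finset (Pr k), ∑ v ∈ U, (1 : ℝ) / (nm v : ℝ) ^ 2 ≤ C := by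
  have hs : Summable fun n : ℕ => (1 : ℝ) / (n : ℝ) ^ 2 := Real.summable_one_div_nat_pow.2 (by norm_num)
  refine ⟨Module.finrank ℚ k * ∑' n : ℕ, (1 : ℝ) / (n : ℝ) ^ 2, fun U => ?_⟩
  have h1 := sum_le U (U.sup nm) (fun v hv => Finset.le_sup (f := nm) hv) (fun v => (1 : ℝ) / (nm v : ℝ) ^ 2)
    (fun p => (1 : ℝ) / ((p : ℕ) : ℝ) ^ 2) (fun p => by positivity) (fun v _ => by
      have hp : (0 : ℝ) < (pb v : ℕ) := by exact_mod_cast (pb v).2.pos
      have h4 : ((pb v : ℕ) : ℝ) ≤ nm v := by exact_mod_cast pb_le v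
      exact div_le_div_of_nonneg_left (by norm_num) (by positivity) (pow_le_pow_left₀ hp.le h4 2))
  refine h1.trans (mul_le_mul_of_nonneg_left ?_ (Nat.cast_nonneg _))
  rw [sum_PX (fun n => (1 : ℝ) / (n : ℝ) ^ 2)]
  exact hs.sum_le_tsum _ (fun n _ => by positivity)

end nf

/-- lower bound for the logarithm of the product of the small primes of `Q` -/
theorem lower_sum {k : Type} [Field k] [NumberField k] [DecidableEq (Pr k)] (Bad Q : Set (Pr k)) (hBad : Bad.Finite)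
    {κ C : ℝ} (B : ℕ → Finset (Pr k)) [DecidablePred (· ∈ Q)] [DecidablePred fun v => v ∈ Q ∧ v ∉ Bad]
    (h : ∀ x : ℕ, 2 ≤ x → |∑ v ∈ (B x).filter (· ∈ Q), (1 : ℝ) / nm v - κ * Real.log (Real.log x)| ≤ C)
    {y : ℕ} (hy : 2 ≤ y) :
    κ * Real.log (Real.log y) - (C + hBad.toFinset.card) ≤
      ∑ v ∈ (B y).filter (fun v => v ∈ Q ∧ v ∉ Bad), (1 : ℝ) / nm v := by
  classical
  have h1 := (abs_le.1 (h y hy)).1
  have h2 : ∑ v ∈ (B y).filter (· ∈ Q), (1 : ℝ) / nm v ≤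
      ∑ v ∈ (B y).filter (fun v => v ∈ Q ∧ v ∉ Bad), (1 : ℝ) / nm v + ∑ v ∈ hBad.toFinset, (1 : ℝ) / nm v := by
    have h3 : (B y).filter (· ∈ Q) ⊆ (B y).filter (fun v => v ∈ Q ∧ v ∉ Bad) ∪ hBad.toFinset := by
      intro v hv
      rw [Finset.mem_filter] at hv
      rw [Finset.mem_union, Finset.mem_filter, Set.Finite.mem_toFinset]
      by_cases hb : v ∈ Bad
      · exact Or.inr hb
      · exact Or.inl ⟨hv.1, hv.2, hb⟩
    refine (Finset.sum_le_sum_of_subset_of_nonneg h3 fun v _ _ => by positivity).trans ?_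
    have h4 := Finset.sum_union_inter (s₁ := (B y).filter (fun v => v ∈ Q ∧ v ∉ Bad)) (s₂ := hBad.toFinset)
      (f := fun v => (1 : ℝ) / (nm v : ℝ))
    have h5 : 0 ≤ ∑ v ∈ (B y).filter (fun v => v ∈ Q ∧ v ∉ Bad) ∩ hBad.toFinset, (1 : ℝ) / (nm v : ℝ) :=
      Finset.sum_nonneg fun v _ => by positivity
    linarith
  have h6 : ∑ v ∈ hBad.toFinset, (1 : ℝ) / nm v ≤ hBad.toFinset.card := by
    have h7 : ∑ v ∈ hBad.toFinset, (1 : ℝ) / nm v ≤ ∑ v ∈ hBad.toFinset, (1 : ℝ) := by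
      refine Finset.sum_le_sum fun v _ => ?_
      have h8 : (1 : ℝ) ≤ nm v := by
        have := two_nm k v
        exact_mod_cast (by omega : 1 ≤ nm v)
      rw [div_le_one (by linarith)]
      exact h8
    simpa using h7
  linarith

/-- the numerical end -/
theorem numeric {κ : ℝ} (hκ : 0 < κ) (hκ1 : κ ≤ 1) {A x y : ℕ} (hA : 1 ≤ A) (hx : 3 ≤ x) (hy : 2 ≤ y)
    (hxy : Real.log x ≤ 2 * A * Real.log y) {c C₃ s n : ℝ} (hc : 0 < c)
    (hs : Real.exp (κ * Real.log (Real.log y) - C₃) / 2 ≤ s)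
    (hn : c / 4 * (x / Real.log x) * s ≤ n) :
    c / 8 * Real.exp (-C₃) / (2 * A) * x * Real.log x ^ (κ - 1) ≤ n := by
  have hx0 : (0 : ℝ) < x := by exact_mod_cast (by omega : 0 < x)
  have hlx : 0 < Real.log x := Real.log_pos (by exact_mod_cast (by omega : 1 < x))
  have hly : 0 < Real.log y := Real.log_pos (by exact_mod_cast (by omega : 1 < y))
  have hA1 : (1 : ℝ) ≤ A := by exact_mod_cast hA
  have hA2 : (0 : ℝ) < 2 * A := by linarith
  have h1 : Real.log x ^ κ / (2 * A) ≤ Real.log y ^ κ := by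
    rw [div_le_iff₀ hA2]
    calc Real.log x ^ κ ≤ (2 * A * Real.log y) ^ κ := Real.rpow_le_rpow hlx.le hxy hκ.le
      _ = (2 * A) ^ κ * Real.log y ^ κ := Real.mul_rpow hA2.le hly.le
      _ ≤ (2 * A) ^ (1 : ℝ) * Real.log y ^ κ := by
          refine mul_le_mul_of_nonneg_right ?_ (Real.rpow_nonneg hly.le _)
          exact Real.rpow_le_rpow_of_exponent_le (by linarith) hκ1
      _ = Real.log y ^ κ * (2 * A) := by rw [Real.rpow_one, mul_comm]
  have h2 : Real.exp (κ * Real.log (Real.log y) - C₃) = Real.log y ^ κ * Real.exp (-C₃) := by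
    rw [Real.rpow_def_of_pos hly, ← Real.exp_add]
    congr 1
    ring
  rw [h2] at hs
  have h3 : Real.log x ^ (κ - 1) = Real.log x ^ κ / Real.log x := by
    rw [Real.rpow_sub hlx, Real.rpow_one]
  rw [h3]
  refine le_trans ?_ hn
  have he : 0 < Real.exp (-C₃) := Real.exp_pos _
  calc c / 8 * Real.exp (-C₃) / (2 * A) * x * (Real.log x ^ κ / Real.log x)
      = c / 4 * (x / Real.log x) * (Real.log x ^ κ / (2 * A) * Real.exp (-C₃) / 2) := by ring
    _ ≤ c / 4 * (x / Real.log x) * (Real.log y ^ κ * Real.exp (-C₃) / 2) := by gcongr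
    _ ≤ _ := by gcongr

end

end Pool.Agent.Helper88.MP
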