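import Pool.Agent.Helper88.MP.LowB

/-!
# Block LOWK of project MP: the theorem
-/

set_option autoImplicit false

namespace Pool.Agent.MP

open NumberField IsDedekindDomain Filter Topology
open Pool.Agent.HG (Pr nm)
open Pool.Agent.Helper88.MP

noncomputable section

theorem lowK : StmtLOWK := by
  classical
  intro hPIT _ k L _ _ _ _ _ _ Bad Q κ C hBad hκ hκ1 hSpl B hB hQ
  obtain ⟨c, K, x₀, hc, hK, hP⟩ := hPIT k L
  obtain ⟨C₁, D, hC₁, hD, hlog⟩ := log_div k
  obtain ⟨C₂, hC₂⟩ := sum_sq k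
  obtain ⟨b, hb⟩ : ∃ b : ℕ, b = hBad.toFinset.card := ⟨_, rfl⟩
  obtain ⟨A, hA⟩ : ∃ A : ℕ, A = 12 * D := ⟨_, rfl⟩
  have hA12 : 12 ≤ A := by omega
  -- the threshold for the removal of the bad primes
  obtain ⟨N₁, hN₁⟩ : ∃ N₁ : ℕ, ∀ X : ℕ, N₁ ≤ X → (b : ℝ) ≤ c / 2 * (X / Real.log X) := by
    have h1 := Real.isLittleO_log_id_atTop.def (show (0 : ℝ) < c / (2 * (b + 1)) by positivity)
    have h2 := tendsto_natCast_atTop_atTop.eventually h1
    obtain ⟨N, hN⟩ := eventually_atTop.1 h2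
    refine ⟨N + 2, fun X hX => ?_⟩
    have h3 := hN X (by omega)
    have hX1 : (1 : ℝ) < X := by exact_mod_cast (by omega : 1 < X)
    have hl : 0 < Real.log X := Real.log_pos hX1
    rw [Real.norm_eq_abs, abs_of_pos hl, id, Real.norm_eq_abs, abs_of_pos (by linarith)] at h3
    rw [← mul_div_assoc, le_div_iff₀ hl]
    calc (b : ℝ) * Real.log X ≤ (b + 1) * Real.log X := by nlinarith
      _ ≤ (b + 1) * (c / (2 * (b + 1)) * X) := mul_le_mul_of_nonneg_left h3 (by positivity)
      _ = c / 2 * X := by field_simp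
  have hP' : ∀ X : ℕ, ∃ S : Finset (Pr k), x₀ ≤ X →
      (∀ v ∈ S, X < K * nm v ∧ nm v ≤ X ∧ Spl k L v) ∧ c * X / Real.log X ≤ S.card := by
    intro X
    by_cases h : x₀ ≤ X
    · obtain ⟨S, hS⟩ := hP X h
      exact ⟨S, fun _ => hS⟩
    · exact ⟨∅, fun h' => absurd h' h⟩
  choose Sf hSf using hP'
  have hcard : ∀ X : ℕ, x₀ ≤ X → N₁ ≤ X → 2 ≤ X →
      c / 2 * (X / Real.log X) ≤ ((Sf X).filter (· ∉ Bad)).card := by
    intro X h1 h2 h3
    have h4 := (hSf X h1).2
    have h5 := hN₁ X h2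
    have h6 : (Sf X).card ≤ ((Sf X).filter (· ∉ Bad)).card + b := by
      rw [hb]
      have h7 : Sf X ⊆ (Sf X).filter (· ∉ Bad) ∪ hBad.toFinset := by
        intro v hv
        rw [Finset.mem_union, Finset.mem_filter, Set.Finite.mem_toFinset]
        by_cases h : v ∈ Bad
        · exact Or.inr h
        · exact Or.inl ⟨hv, h⟩
      exact (Finset.card_le_card h7).trans (Finset.card_union_le _ _)
    have h8 : ((Sf X).card : ℝ) ≤ ((Sf X).filter (· ∉ Bad)).card + b := by exact_mod_cast h6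
    have h9 : c * X / Real.log X = 2 * (c / 2 * (X / Real.log X)) := by ring
    rw [h9] at h4
    linarith
  obtain ⟨N₂, hN₂⟩ : ∃ N₂ : ℕ, N₂ = max (max x₀ N₁) 2 := ⟨_, rfl⟩
  obtain ⟨N, hN⟩ : ∃ N : ℕ, N = N₂ ^ 3 + (K + 1) ^ A + 2 ^ A + ⌈Real.exp (12 * D * C₁)⌉₊ + 3 := ⟨_, rfl⟩
  obtain ⟨hNa, hNb, hNc, hNd, hNe⟩ : N₂ ^ 3 ≤ N ∧ (K + 1) ^ A ≤ N ∧ 2 ^ A ≤ N ∧ ⌈Real.exp (12 * D * C₁)⌉₊ ≤ N ∧ 3 ≤ N := by
    rw [hN]
    generalize N₂ ^ 3 = a1
    generalize (K + 1) ^ A = a2
    generalize 2 ^ A = a3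
    generalize ⌈Real.exp (12 * D * C₁)⌉₊ = a4
    omega
  clear hN
  set c₁ : ℝ := c / 8 * Real.exp (-(C + b + C₂)) / (2 * A) with hc₁
  have hA0 : (0 : ℝ) < A := by exact_mod_cast (by omega : 0 < A)
  have hc₁0 : 0 < c₁ := by positivity
  have hN0 : (0 : ℝ) < N := by exact_mod_cast (by omega : 0 < N)
  refine ⟨min c₁ (1 / N), by positivity, fun x hx => ?_⟩
  have hx0 : (0 : ℝ) < x := by exact_mod_cast (by omega : 0 < x)
  have hlx : 0 < Real.log x := Real.log_pos (by exact_mod_cast (by omega : 1 < x))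
  rcases lt_or_ge x N with hxN | hxN
  · -- small `x`
    refine ⟨{∅}, ?_, ?_⟩
    · intro s hs
      rw [Finset.mem_singleton] at hs
      subst hs
      simp only [Finset.prod_empty, Finset.notMem_empty, false_imp_iff, implies_true, and_true]
      omega
    · rw [Finset.card_singleton]
      have h1 : Real.log x ^ (κ - 1) ≤ 1 := by
        apply Real.rpow_le_one_of_one_le_of_nonpos
        · exact Pool.Agent.Helper99.HG.log_ge_one hx
        · linarith
      have h2 : min c₁ (1 / (N : ℝ)) * x ≤ 1 := by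
        have h3 : (x : ℝ) ≤ N := by exact_mod_cast hxN.le
        calc min c₁ (1 / (N : ℝ)) * x ≤ 1 / N * x := mul_le_mul_of_nonneg_right (min_le_right _ _) hx0.le
          _ = x / N := by ring
          _ ≤ 1 := by rw [div_le_one hN0]; exact h3
      have h4 : 0 ≤ min c₁ (1 / (N : ℝ)) * x := by positivity
      have h5 : 0 ≤ Real.log x ^ (κ - 1) := Real.rpow_nonneg hlx.le _
      push_cast
      nlinarith
  · -- large `x`
    obtain ⟨y, hy1, hy2⟩ := exists_root A x (by omega)
    have h2A : 2 ^ A ≤ x := hNc.trans hxN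
    have hKA : (K + 1) ^ A ≤ x := hNb.trans hxN
    have hN3 : N₂ ^ 3 ≤ x := hNa.trans hxN
    have hexp : ⌈Real.exp (12 * D * C₁)⌉₊ ≤ x := hNd.trans hxN
    have hy : 2 ≤ y := by
      by_contra h
      have h1 : (y + 1) ^ A ≤ 2 ^ A := Nat.pow_le_pow_left (by omega) A
      omega
    have hyK : K + 1 ≤ y := by
      by_contra h
      have h1 : (y + 1) ^ A ≤ (K + 1) ^ A := Nat.pow_le_pow_left (by omega) A
      omega
    have hy0 : (0 : ℝ) < y := by exact_mod_cast (by omega : 0 < y)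
    have hly : 0 < Real.log y := Real.log_pos (by exact_mod_cast (by omega : 1 < y))
    have hAy : A * Real.log y ≤ Real.log x := by
      rw [← Real.log_pow]
      apply Real.log_le_log (by positivity)
      exact_mod_cast hy1
    have hxy : Real.log x ≤ 2 * A * Real.log y := by
      have h1 : x ≤ y ^ (2 * A) := by
        have h2 : y + 1 ≤ y ^ 2 := by nlinarith
        calc x ≤ (y + 1) ^ A := hy2.le
          _ ≤ (y ^ 2) ^ A := Nat.pow_le_pow_left h2 A
          _ = y ^ (2 * A) := (pow_mul y 2 A).symm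
      have h3 : (x : ℝ) ≤ (y : ℝ) ^ (2 * A) := by exact_mod_cast h1
      have h4 := Real.log_le_log hx0 h3
      rw [Real.log_pow] at h4
      push_cast at h4
      exact h4
    -- the small primes of `Q`
    set U : Finset (Pr k) := (B y).filter (fun v => v ∈ Q ∧ v ∉ Bad) with hU
    have hUy : ∀ v ∈ U, nm v ≤ y := fun v hv => (hB y v).1 (Finset.mem_filter.1 hv).1
    have hE : ∑ v ∈ U, Real.log (nm v) / nm v ≤ Real.log x / 6 := by
      refine (hlog y hy U hUy).trans ?_
      have h1 : 12 * D * C₁ ≤ Real.log x := by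
        rw [Real.le_log_iff_exp_le hx0]
        exact (Nat.le_ceil _).trans (by exact_mod_cast hexp)
      rw [hA] at hAy
      push_cast at hAy
      nlinarith
    set M : Finset (Finset (Pr k)) := U.powerset.filter (fun m => (∏ v ∈ m, nm v) ^ 3 ≤ x) with hM
    have hs : Real.exp (κ * Real.log (Real.log y) - (C + b + C₂)) / 2 ≤ ∑ m ∈ M, T nm m := by
      have h1 := big nm (two_nm k) U x hx hE
      have h2 := exp_le_prod nm U
      have h3 := hC₂ U
      have h4 := lower_sum Bad Q hBad B hQ hy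
      rw [← hb] at h4
      have h5 : Real.exp (κ * Real.log (Real.log y) - (C + b + C₂)) ≤
          Real.exp (∑ v ∈ U, (1 : ℝ) / nm v - ∑ v ∈ U, (1 : ℝ) / (nm v : ℝ) ^ 2) := by
        apply Real.exp_le_exp.2
        linarith
      linarith
    -- the quotients
    have hX : ∀ m ∈ M, 0 < ∏ v ∈ m, nm v ∧ N₂ ≤ x / ∏ v ∈ m, nm v ∧ K * y < x / ∏ v ∈ m, nm v := by
      intro m hm
      have h1 : 0 < ∏ v ∈ m, nm v := Finset.prod_pos fun v _ => by
        have := two_nm k v
        omega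
      have h2 := div_large h1 (Finset.mem_filter.1 hm).2
      refine ⟨h1, ?_, ?_⟩
      · by_contra h
        have h3 : (x / (∏ v ∈ m, nm v) + 1) ^ 3 ≤ N₂ ^ 3 := Nat.pow_le_pow_left (by omega) 3
        have h4 : x ≤ x ^ 2 := Nat.le_self_pow (by norm_num) x
        omega
      · by_contra h
        have h3 : x / (∏ v ∈ m, nm v) + 1 ≤ y * y := by
          have h4 : K * y + 1 ≤ y * y := by nlinarith
          omega
        have h5 : (x / (∏ v ∈ m, nm v) + 1) ^ 3 ≤ x ^ 2 := by
          calc (x / (∏ v ∈ m, nm v) + 1) ^ 3 ≤ (y * y) ^ 3 := Nat.pow_le_pow_left h3 3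
            _ = (y ^ 3) ^ 2 := by ring
            _ ≤ (y ^ A) ^ 2 := Nat.pow_le_pow_left (Nat.pow_le_pow_right (by omega) (by omega)) 2
            _ ≤ x ^ 2 := Nat.pow_le_pow_left hy1 2
        omega
    set F : Finset (Pr k) → Finset (Pr k) := fun m => (Sf (x / ∏ v ∈ m, nm v)).filter (· ∉ Bad) with hF
    have hFp : ∀ m ∈ M, ∀ q ∈ F m, y < nm q ∧ nm q * ∏ v ∈ m, nm v ≤ x ∧ q ∈ Q ∧ q ∉ Bad := by
      intro m hm q hq
      obtain ⟨h1, h2, h3⟩ := hX m hm
      have h4 := Finset.mem_filter.1 hq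
      have h5 := (hSf (x / ∏ v ∈ m, nm v) (by omega)).1 q h4.1
      refine ⟨?_, ?_, hSpl q h4.2 h5.2.2, h4.2⟩
      · have h6 : K * y < K * nm q := h3.trans h5.1
        exact lt_of_mul_lt_mul_left h6 (Nat.zero_le K)
      · calc nm q * ∏ v ∈ m, nm v ≤ x / (∏ v ∈ m, nm v) * ∏ v ∈ m, nm v := Nat.mul_le_mul_right _ h5.2.1
          _ ≤ x := Nat.div_mul_le_self x _
    have hmU : ∀ m ∈ M, ∀ v ∈ m, v ∈ U := fun m hm v hv => Finset.mem_powerset.1 (Finset.mem_filter.1 hm).1 hv
    have hnm : ∀ m ∈ M, ∀ m' ∈ M, ∀ q ∈ F m, q ∉ m' := by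
      intro m hm m' hm' q hq h
      have h1 := (hFp m hm q hq).1
      have h2 := hUy q (hmU m' hm' q h)
      omega
    have hinj : Set.InjOn (fun p : (_ : Finset (Pr k)) × Pr k => insert p.2 p.1) (M.sigma F : Set ((_ : Finset (Pr k)) × Pr k)) := by
      rintro ⟨m, q⟩ h1 ⟨m', q'⟩ h2 h3
      simp only [Finset.mem_coe, Finset.mem_sigma] at h1 h2
      simp only at h3
      have h4 : q = q' := by
        have h5 : q ∈ insert q' m' := by
          rw [← h3]
          exact Finset.mem_insert_self _ _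
        rcases Finset.mem_insert.1 h5 with h6 | h6
        · exact h6
        · exact absurd h6 (hnm m h1.1 m' h2.1 q h1.2)
      subst h4
      have h7 : m = m' := by
        rw [← Finset.erase_insert (hnm m h1.1 m h1.1 q h1.2), h3,
          Finset.erase_insert (hnm m h1.1 m' h2.1 q h1.2)]
      subst h7
      rfl
    refine ⟨(M.sigma F).image (fun p => insert p.2 p.1), ?_, ?_⟩
    · intro s hs'
      obtain ⟨⟨m, q⟩, h1, rfl⟩ := Finset.mem_image.1 hs'
      rw [Finset.mem_sigma] at h1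
      obtain ⟨h2, h3, h4, h5⟩ := hFp m h1.1 q h1.2
      refine ⟨?_, ?_⟩
      · simp only
        rw [Finset.prod_insert (hnm m h1.1 m h1.1 q h1.2)]
        exact h3
      · intro v hv
        rcases Finset.mem_insert.1 hv with h6 | h6
        · rw [h6]
          exact ⟨h4, h5⟩
        · exact (Finset.mem_filter.1 (hmU m h1.1 v h6)).2
    · rw [Finset.card_image_of_injOn hinj, Finset.card_sigma]
      have hn : c / 4 * (x / Real.log x) * ∑ m ∈ M, T nm m ≤ ((∑ m ∈ M, (F m).card : ℕ) : ℝ) := by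
        rw [Finset.mul_sum, Nat.cast_sum]
        refine Finset.sum_le_sum fun m hm => ?_
        obtain ⟨h1, h2, h3⟩ := hX m hm
        have h4 := hcard (x / ∏ v ∈ m, nm v) (by omega) (by omega) (by omega)
        refine le_trans ?_ h4
        set X := x / ∏ v ∈ m, nm v with hXd
        have hX2 : 2 ≤ X := by omega
        have hX0 : (0 : ℝ) < X := by exact_mod_cast (by omega : 0 < X)
        have hlX : 0 < Real.log X := Real.log_pos (by exact_mod_cast (by omega : 1 < X))
        have h5 : T nm m = 1 / ((∏ v ∈ m, nm v : ℕ) : ℝ) := by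
          unfold T
          rw [Finset.prod_div_distrib, Finset.prod_const_one]
          push_cast
          rfl
        have h6 : x < (X + 1) * ∏ v ∈ m, nm v := by
          rw [mul_comm]
          exact Nat.lt_mul_div_succ x h1
        have h7 : (x : ℝ) < (X + 1) * ((∏ v ∈ m, nm v : ℕ) : ℝ) := by exact_mod_cast h6
        have h1' : (0 : ℝ) < ((∏ v ∈ m, nm v : ℕ) : ℝ) := by exact_mod_cast h1
        have h8 : (x : ℝ) * T nm m ≤ 2 * X := by
          rw [h5, mul_one_div, div_le_iff₀ h1']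
          have h9 : (1 : ℝ) ≤ X := by exact_mod_cast (by omega : 1 ≤ X)
          nlinarith
        have h10 : Real.log X ≤ Real.log x := by
          apply Real.log_le_log hX0
          exact_mod_cast Nat.div_le_self x _
        have h11 : (X : ℝ) / Real.log x ≤ X / Real.log X := div_le_div_of_nonneg_left hX0.le hlX h10
        calc c / 4 * (x / Real.log x) * T nm m = c / 4 * (x * T nm m) / Real.log x := by ring
          _ ≤ c / 4 * (2 * X) / Real.log x := by gcongr
          _ = c / 2 * (X / Real.log x) := by ring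
          _ ≤ c / 2 * (X / Real.log X) := by gcongr
      have h12 := numeric hκ hκ1 (by omega : 1 ≤ A) hx hy hxy hc hs hn
      refine le_trans ?_ h12
      have h13 : 0 ≤ Real.log x ^ (κ - 1) := Real.rpow_nonneg hlx.le _
      refine mul_le_mul_of_nonneg_right (mul_le_mul_of_nonneg_right (min_le_left _ _) hx0.le) h13

end

end Pool.Agent.MP
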