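import Pool.Agent.Helper13.MP.Defs
import Pool.Agent.Helper21.HG.Mert

/-!
# Block LOWK of project MP, part 1: sums over sets of primes
-/

set_option autoImplicit false

namespace Pool.Agent.Helper88.MP

open Filter Topology

noncomputable section

section abs

variable {P : Type} (nm : P → ℕ)

/-- the weight of a set -/
def T (m : Finset P) : ℝ := ∏ v ∈ m, (1 : ℝ) / nm v

theorem T_nonneg (m : Finset P) : 0 ≤ T nm m := Finset.prod_nonneg fun _ _ => by positivity

theorem sum_T (U : Finset P) : ∑ m ∈ U.powerset, T nm m = ∏ v ∈ U, (1 + 1 / (nm v : ℝ)) := by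
  classical
  rw [Finset.prod_one_add]
  rfl

theorem sum_TL (U : Finset P) :
    ∑ m ∈ U.powerset, T nm m * ∑ v ∈ m, Real.log (nm v) ≤
      (∑ v ∈ U, Real.log (nm v) / nm v) * ∏ v ∈ U, (1 + 1 / (nm v : ℝ)) := by
  classical
  induction U using Finset.induction_on with
  | empty => simp
  | insert a U ha ih =>
    rw [Finset.sum_powerset_insert ha, Finset.sum_insert ha, Finset.prod_insert ha]
    have h1 : ∑ m ∈ U.powerset, T nm (insert a m) * ∑ v ∈ insert a m, Real.log (nm v) =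
        (1 / (nm a : ℝ)) * (∑ m ∈ U.powerset, T nm m * ∑ v ∈ m, Real.log (nm v)) +
          Real.log (nm a) / nm a * ∑ m ∈ U.powerset, T nm m := by
      rw [Finset.mul_sum, Finset.mul_sum, ← Finset.sum_add_distrib]
      apply Finset.sum_congr rfl
      intro m hm
      have ham : a ∉ m := fun h => ha (Finset.mem_powerset.1 hm h)
      unfold T
      rw [Finset.prod_insert ham, Finset.sum_insert ham]
      ring
    rw [h1, sum_T]
    set F := ∑ m ∈ U.powerset, T nm m * ∑ v ∈ m, Real.log (nm v)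
    set E := ∑ v ∈ U, Real.log (nm v) / nm v
    set Q := ∏ v ∈ U, (1 + 1 / (nm v : ℝ))
    have hQ : 0 ≤ Q := Finset.prod_nonneg fun _ _ => by positivity
    have ht : 0 ≤ 1 / (nm a : ℝ) := by positivity
    have hL : 0 ≤ Real.log (nm a) / nm a := div_nonneg (Real.log_natCast_nonneg _) (Nat.cast_nonneg _)
    have h2 : (1 + 1 / (nm a : ℝ)) * F ≤ (1 + 1 / (nm a : ℝ)) * (E * Q) :=
      mul_le_mul_of_nonneg_left ih (by linarith)
    have h3 : 0 ≤ 1 / (nm a : ℝ) * (Real.log (nm a) / nm a * Q) := by positivity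
    nlinarith

theorem big (h2 : ∀ v, 2 ≤ nm v) (U : Finset P) (x : ℕ) (hx : 3 ≤ x)
    (hE : ∑ v ∈ U, Real.log (nm v) / nm v ≤ Real.log x / 6) :
    (∏ v ∈ U, (1 + 1 / (nm v : ℝ))) / 2 ≤
      ∑ m ∈ U.powerset.filter (fun m => (∏ v ∈ m, nm v) ^ 3 ≤ x), T nm m := by
  classical
  have hx0 : (0 : ℝ) < x := by exact_mod_cast (by omega : 0 < x)
  have hl : 0 < Real.log x := Real.log_pos (by exact_mod_cast (by omega : 1 < x))
  have h3 := Finset.sum_filter_add_sum_filter_not U.powerset (fun m => (∏ v ∈ m, nm v) ^ 3 ≤ x) (T nm)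
  rw [sum_T] at h3
  have h4 : ∑ m ∈ U.powerset.filter (fun m => ¬ (∏ v ∈ m, nm v) ^ 3 ≤ x), T nm m ≤
      (3 / Real.log x) * ∑ m ∈ U.powerset, T nm m * ∑ v ∈ m, Real.log (nm v) := by
    have h5 : ∑ m ∈ U.powerset.filter (fun m => ¬ (∏ v ∈ m, nm v) ^ 3 ≤ x), T nm m ≤
        ∑ m ∈ U.powerset.filter (fun m => ¬ (∏ v ∈ m, nm v) ^ 3 ≤ x),
          (3 / Real.log x) * (T nm m * ∑ v ∈ m, Real.log (nm v)) := by
      refine Finset.sum_le_sum fun m hm => ?_
      have h6 : x < (∏ v ∈ m, nm v) ^ 3 := not_le.1 (Finset.mem_filter.1 hm).2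
      have h7 : (x : ℝ) ≤ (∏ v ∈ m, (nm v : ℝ)) ^ 3 := by
        have := h6.le
        exact_mod_cast this
      have h8 := Real.log_le_log hx0 h7
      rw [Real.log_pow, Real.log_prod (fun v _ => by
        have := h2 v
        exact_mod_cast (by omega : nm v ≠ 0))] at h8
      push_cast at h8
      have h9 : 1 ≤ 3 / Real.log x * ∑ v ∈ m, Real.log (nm v) := by
        rw [div_mul_eq_mul_div, le_div_iff₀ hl]
        linarith
      calc T nm m = T nm m * 1 := (mul_one _).symm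
        _ ≤ T nm m * (3 / Real.log x * ∑ v ∈ m, Real.log (nm v)) :=
          mul_le_mul_of_nonneg_left h9 (T_nonneg nm m)
        _ = _ := by ring
    refine h5.trans ?_
    rw [← Finset.mul_sum]
    refine mul_le_mul_of_nonneg_left ?_ (by positivity)
    refine Finset.sum_le_sum_of_subset_of_nonneg (Finset.filter_subset _ _) fun m _ _ => ?_
    exact mul_nonneg (T_nonneg nm m) (Finset.sum_nonneg fun v _ => Real.log_natCast_nonneg _)
  have h10 := sum_TL nm U
  set F := ∑ m ∈ U.powerset, T nm m * ∑ v ∈ m, Real.log (nm v)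
  set E := ∑ v ∈ U, Real.log (nm v) / nm v
  set Q := ∏ v ∈ U, (1 + 1 / (nm v : ℝ))
  have hQ : 0 ≤ Q := Finset.prod_nonneg fun _ _ => by positivity
  have h11 : 3 / Real.log x * F ≤ Q / 2 := by
    calc 3 / Real.log x * F ≤ 3 / Real.log x * (Real.log x / 6 * Q) := by
          refine mul_le_mul_of_nonneg_left (h10.trans ?_) (by positivity)
          exact mul_le_mul_of_nonneg_right hE hQ
      _ = Q / 2 := by
          field_simp
          ring
  linarith

theorem exp_le_one_add {t : ℝ} (ht : 0 ≤ t) : Real.exp (t - t ^ 2) ≤ 1 + t := by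
  have h1 : 0 < 1 - t + t ^ 2 := by nlinarith [sq_nonneg (t - 1 / 2)]
  have h2 : 1 - t + t ^ 2 ≤ Real.exp (-(t - t ^ 2)) := by
    have := Real.add_one_le_exp (-(t - t ^ 2))
    linarith
  have h3 : Real.exp (t - t ^ 2) * Real.exp (-(t - t ^ 2)) = 1 := by
    rw [← Real.exp_add]
    simp
  have h4 : 0 < Real.exp (t - t ^ 2) := Real.exp_pos _
  have h5 : Real.exp (t - t ^ 2) * (1 - t + t ^ 2) ≤ 1 := by
    calc Real.exp (t - t ^ 2) * (1 - t + t ^ 2) ≤ Real.exp (t - t ^ 2) * Real.exp (-(t - t ^ 2)) :=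
          mul_le_mul_of_nonneg_left h2 h4.le
      _ = 1 := h3
  have h6 : 1 ≤ (1 + t) * (1 - t + t ^ 2) := by
    have : 0 ≤ t ^ 3 := by positivity
    nlinarith
  have h7 : Real.exp (t - t ^ 2) * (1 - t + t ^ 2) ≤ (1 + t) * (1 - t + t ^ 2) := h5.trans h6
  exact le_of_mul_le_mul_right h7 h1

theorem exp_le_prod (U : Finset P) :
    Real.exp (∑ v ∈ U, (1 : ℝ) / nm v - ∑ v ∈ U, (1 : ℝ) / (nm v : ℝ) ^ 2) ≤ ∏ v ∈ U, (1 + 1 / (nm v : ℝ)) := by
  rw [← Finset.sum_sub_distrib, Real.exp_sum]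
  refine Finset.prod_le_prod (fun v _ => (Real.exp_pos _).le) fun v _ => ?_
  have h1 := exp_le_one_add (t := 1 / (nm v : ℝ)) (by positivity)
  have e : (1 / (nm v : ℝ)) ^ 2 = 1 / (nm v : ℝ) ^ 2 := by
    rw [div_pow, one_pow]
  rwa [e] at h1

end abs

/-- integral roots -/
theorem exists_root (A x : ℕ) (hA : 1 ≤ A) : ∃ y : ℕ, y ^ A ≤ x ∧ x < (y + 1) ^ A := by
  classical
  have h : ∃ n : ℕ, x < (n + 1) ^ A := ⟨x, by
    calc x < x + 1 := Nat.lt_succ_self x
      _ ≤ (x + 1) ^ A := Nat.le_self_pow (by omega) _⟩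
  refine ⟨Nat.find h, ?_, Nat.find_spec h⟩
  rcases Nat.eq_zero_or_pos (Nat.find h) with h0 | h0
  · rw [h0, zero_pow (by omega)]
    exact Nat.zero_le _
  · have h1 := Nat.find_min h (m := Nat.find h - 1) (by omega)
    rw [not_lt] at h1
    rwa [Nat.sub_add_cancel h0] at h1

/-- the quotient of `x` by a number whose cube is at most `x` is large -/
theorem div_large {x p : ℕ} (hp : 0 < p) (h : p ^ 3 ≤ x) : x ^ 2 < (x / p + 1) ^ 3 := by
  have hx : 0 < x := lt_of_lt_of_le (by positivity) h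
  have h1 : x < (x / p + 1) * p := by
    rw [mul_comm]
    exact Nat.lt_mul_div_succ x hp
  have h2 : x ^ 3 < ((x / p + 1) * p) ^ 3 := Nat.pow_lt_pow_left h1 (by norm_num)
  have h3 : ((x / p + 1) * p) ^ 3 ≤ (x / p + 1) ^ 3 * x := by
    rw [mul_pow]
    exact Nat.mul_le_mul_left _ h
  have h4 : x ^ 2 * x < (x / p + 1) ^ 3 * x := by
    calc x ^ 2 * x = x ^ 3 := by ring
      _ < _ := h2
      _ ≤ _ := h3
  exact lt_of_mul_lt_mul_right h4 (Nat.zero_le x)

end

end Pool.Agent.Helper88.MP
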